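import Mathlib

/-!
Definitions: groups of linear automorphisms which act cocompactly on an open convex cone.
-/

set_option autoImplicit false

namespace Pool.Agent.L0h18.CO

variable {ρ : ℕ}

/-- The set `𝒢` of linear automorphisms acts cocompactly on the cone `Ω` up to positive scalars: there
is a compact subset `B` of `Ω` such that every element of `Ω` is moved into `B` by an element of `𝒢`
and the multiplication by a positive real number. -/
def Cocompact (𝒢 : Set ((Fin ρ → ℝ) ≃ₗ[ℝ] (Fin ρ → ℝ))) (Ω : Set (Fin ρ → ℝ)) : Prop :=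
  ∃ B : Set (Fin ρ → ℝ), IsCompact B ∧ B ⊆ Ω ∧ ∀ x ∈ Ω, ∃ T ∈ 𝒢, ∃ t : ℝ, 0 < t ∧ t • T x ∈ B

/-- `Ω` is an open convex cone whose closure contains no line. -/
structure IsOpenCone (Ω : Set (Fin ρ → ℝ)) : Prop where
  isOpen : IsOpen Ω
  add : ∀ x ∈ Ω, ∀ z ∈ Ω, x + z ∈ Ω
  smul : ∀ t : ℝ, 0 < t → ∀ x ∈ Ω, t • x ∈ Ω
  pointed : ∀ x ∈ closure Ω, -x ∈ closure Ω → x = 0

end Pool.Agent.L0h18.CO
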