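import Pool.Agent.N110.CC.RDefs
import Pool.Agent.N110.CC.Defs
import Pool.Agent.L0h18.CO.Defs
import Pool.Agent.N110.DV.Main

/-!
Definition: groups of pseudo-automorphisms which act cocompactly on an open cone of divisor classes.
-/

set_option autoImplicit false

open FF Pool.Agent.W602.GT Pool.Agent.Y172 Pool.Agent.R887
open Pool.Agent.N110 Pool.Agent.N110.CC

namespace Pool.Agent.L0h18.CO

/-- The group `𝒮` of birational self-maps preserves the open convex cone `Ω` in `N¹(X) ⊗ ℝ`, whose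
closure contains no line, acts cocompactly on it up to positive scalars, and `Ω` contains a
pseudo-effective class. -/
structure CocompactAction {K : Type} [Field K] [Algebra ℂ K] {N ρ : ℕ} (y : Fin (N + 1) → K)
    (c : Place ℂ K → Fin ρ → ℤ) (𝒮 : Subgroup (K ≃ₐ[ℂ] K)) (Ω : Set (Fin ρ → ℝ)) : Prop where
  cone : IsOpenCone Ω
  inv : ∀ ψ ∈ 𝒮, ∀ T, IsPullBack y c ψ T → ∀ x ∈ Ω, T x ∈ Ω
  cocompact : Cocompact {T | ∃ ψ ∈ 𝒮, IsPullBack y c ψ T} Ω
  psef : (Ω ∩ closure (effCone y c)).Nonempty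

/-- nef divisors are pseudo-effective -/
theorem psef_of_nefD {K : Type} [Field K] [Algebra ℂ K] {N n : ℕ} {y : Fin (N + 1) → K}
    (hy : NormalModel y) (hn : Algebra.trdeg ℂ K = n) (hn0 : 0 < n) {L : Place ℂ K → ℚ}
    (h : Pool.Agent.N110.DV.NefD y n L) : PsefD y L := by
  intro i hi q hq
  obtain ⟨m, hm, h1⟩ := h i hi q hq
  obtain ⟨Q, hQ⟩ := exists_divisorial hy hn hn0
  obtain ⟨g, hg0, h2, -⟩ := h1 Q hQ
  refine ⟨m, hm, g, hg0, fun P l hP hl => ?_⟩
  have h3 := h2 P l hP hl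
  linarith

end Pool.Agent.L0h18.CO
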