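import Pool.Agent.N110.CC.Stm
import Pool.Agent.N165.KM.Basic
import Pool.Agent.L0h18.CO.Defs

/-!
Groups acting cocompactly on open convex cones: the convex geometry.
-/

set_option autoImplicit false

namespace Pool.Agent.L0h18.CO

open Pool.Agent.N110.CC (PC)
open Pool.Agent.N165.KM (exists_pos_functional interior_sub interior_smul_mem interior_add_mem IntL
  mem_IntL)
open Filter Topology

variable {ρ : ℕ} {𝒢 : Set ((Fin ρ → ℝ) ≃ₗ[ℝ] (Fin ρ → ℝ))} {Ω C : Set (Fin ρ → ℝ)}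

/-- the norm of a nonzero integral vector -/
theorem one_le_norm {x : Fin ρ → ℝ} (hx : x ∈ IntL ρ) (h0 : x ≠ 0) : 1 ≤ ‖x‖ := by
  obtain ⟨i, hi⟩ : ∃ i, x i ≠ 0 := by
    by_contra hcon
    push Not at hcon
    exact h0 (funext hcon)
  obtain ⟨m, hm⟩ := hx i
  have h1 : m ≠ 0 := by
    rintro rfl
    exact hi (by simpa using hm)
  have h2 : (1 : ℝ) ≤ |(m : ℝ)| := by
    have := Int.one_le_abs h1
    exact_mod_cast this
  have h3 := norm_le_pi_norm x i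
  rw [Real.norm_eq_abs, hm] at h3
  linarith

theorem finite_int (R : ℝ) : {x : Fin ρ → ℝ | x ∈ IntL ρ ∧ ‖x‖ ≤ R}.Finite := by
  have hfin : (Set.Icc (fun _ : Fin ρ => -⌈R⌉) (fun _ => ⌈R⌉)).Finite := Set.finite_Icc _ _
  refine (hfin.image fun (m : Fin ρ → ℤ) i => (m i : ℝ)).subset ?_
  rintro x ⟨hx, hR⟩
  choose m hm using hx
  refine ⟨m, ⟨fun i => ?_, fun i => ?_⟩, funext fun i => (hm i).symm⟩
  · have h1 := (norm_le_pi_norm x i).trans hR
    rw [Real.norm_eq_abs, hm i, abs_le] at h1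
    have h2 : (-(⌈R⌉ : ℝ)) ≤ m i := (neg_le_neg (Int.le_ceil R)).trans h1.1
    exact_mod_cast h2
  · have h1 := (norm_le_pi_norm x i).trans hR
    rw [Real.norm_eq_abs, hm i, abs_le] at h1
    have h2 : (m i : ℝ) ≤ ⌈R⌉ := h1.2.trans (Int.le_ceil R)
    exact_mod_cast h2

/-- a group of integral automorphisms of a cone -/
structure Lat (𝒢 : Set ((Fin ρ → ℝ) ≃ₗ[ℝ] (Fin ρ → ℝ))) (C : Set (Fin ρ → ℝ)) : Prop where
  int : ∀ T ∈ 𝒢, ∀ x ∈ IntL ρ, T x ∈ IntL ρ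
  pres : ∀ T ∈ 𝒢, ∀ x ∈ C, T x ∈ C
  symm : ∀ T ∈ 𝒢, T.symm ∈ 𝒢

/-- an integral vector in the interior which dominates the unit vectors -/
theorem exists_dom (hC : PC C) (hint : (interior C).Nonempty) : ∃ h : Fin ρ → ℝ, h ∈ IntL ρ ∧
    h ∈ interior C ∧ ∀ j, h + Pi.single j 1 ∈ C ∧ h - Pi.single j 1 ∈ C := by
  classical
  obtain ⟨u, hu⟩ := hint
  obtain ⟨δ, hδ, hball⟩ := Metric.isOpen_iff.1 isOpen_interior u hu
  obtain ⟨k, hk⟩ := exists_nat_gt (3 / δ)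
  have hk0 : (0 : ℝ) < k := lt_trans (by positivity) hk
  have hkδ : 3 < k * δ := by
    rw [div_lt_iff₀ hδ] at hk
    linarith
  obtain ⟨h, hh⟩ : ∃ h : Fin ρ → ℝ, h = fun i => ((⌊k * u i⌋ : ℤ) : ℝ) := ⟨_, rfl⟩
  have key : ∀ v : Fin ρ → ℝ, ‖v‖ < 3 → (k : ℝ) • u + v ∈ interior C := by
    intro v hv
    have h1 : u + (k : ℝ)⁻¹ • v ∈ interior C := by
      apply hball
      rw [Metric.mem_ball, dist_eq_norm, add_sub_cancel_left, norm_smul, norm_inv,
        Real.norm_of_nonneg hk0.le, inv_mul_lt_iff₀ hk0]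
      linarith
    have h2 := interior_smul_mem hC.smul hk0 h1
    rwa [smul_add, smul_smul, mul_inv_cancel₀ hk0.ne', one_smul] at h2
  have hd : ∀ i, |(h - (k : ℝ) • u) i| ≤ 1 := by
    intro i
    rw [hh, Pi.sub_apply, Pi.smul_apply, smul_eq_mul, abs_le]
    have h1 := Int.floor_le ((k : ℝ) * u i)
    have h2 := Int.lt_floor_add_one ((k : ℝ) * u i)
    constructor <;> linarith
  have hdn : ‖h - (k : ℝ) • u‖ ≤ 1 := (pi_norm_le_iff_of_nonneg zero_le_one).2 hd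
  refine ⟨h, fun i => ⟨⌊k * u i⌋, by rw [hh]⟩, ?_, fun j => ⟨?_, ?_⟩⟩
  · have h1 := key (h - (k : ℝ) • u) (lt_of_le_of_lt hdn (by norm_num))
    rwa [add_sub_cancel] at h1
  · have hs : ‖(Pi.single j 1 : Fin ρ → ℝ)‖ ≤ 1 := by
      refine (pi_norm_le_iff_of_nonneg zero_le_one).2 fun i => ?_
      by_cases hij : i = j
      · subst hij; simp
      · simp [hij]
    have h1 := key (h - (k : ℝ) • u + Pi.single j 1) (by
      have := norm_add_le (h - (k : ℝ) • u) (Pi.single j 1 : Fin ρ → ℝ)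
      linarith)
    rw [← add_assoc, add_sub_cancel] at h1
    exact interior_subset h1
  · have hs : ‖(Pi.single j 1 : Fin ρ → ℝ)‖ ≤ 1 := by
      refine (pi_norm_le_iff_of_nonneg zero_le_one).2 fun i => ?_
      by_cases hij : i = j
      · subst hij; simp
      · simp [hij]
    have h1 := key (h - (k : ℝ) • u - Pi.single j 1) (by
      have := norm_sub_le (h - (k : ℝ) • u) (Pi.single j 1 : Fin ρ → ℝ)
      linarith)
    rw [← add_sub_assoc, add_sub_cancel] at h1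
    exact interior_subset h1

/-- a uniform lower bound on a compact subset of an open set -/
theorem exists_eps {B : Set (Fin ρ → ℝ)} (hB : IsCompact B) (hΩ : IsOpen Ω) (hBΩ : B ⊆ Ω)
    (h : Fin ρ → ℝ) : ∃ ε : ℝ, 0 < ε ∧ ∀ b ∈ B, b - ε • h ∈ Ω := by
  obtain ⟨δ, hδ, hδB⟩ := hB.exists_thickening_subset_open hΩ hBΩ
  refine ⟨δ / (2 * (‖h‖ + 1)), by positivity, fun b hb => hδB ?_⟩
  rw [Metric.mem_thickening_iff]
  refine ⟨b, hb, ?_⟩
  rw [dist_eq_norm, sub_sub_cancel_left, norm_neg, norm_smul, Real.norm_of_nonneg (by positivity),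
    div_mul_eq_mul_div, div_lt_iff₀ (by positivity)]
  have := norm_nonneg h
  nlinarith

/-- The limit of elements of `Ω` which dominate a fixed nonzero integral class is in `Ω`. -/
theorem lim_mem (hC : PC C) (hG : Lat 𝒢 C) (hΩ : IsOpen Ω) (hΩC : Ω ⊆ C)
    (hΩs : ∀ t : ℝ, 0 < t → ∀ x ∈ Ω, t • x ∈ Ω) (hΩG : ∀ T ∈ 𝒢, ∀ x ∈ Ω, T x ∈ Ω)
    (hco : Cocompact 𝒢 Ω) {D : Fin ρ → ℝ} (hD : D ∈ IntL ρ) (hDC : D ∈ C) (hD0 : D ≠ 0)
    {μ : ℝ} (hμ : 0 < μ) {z : ℕ → Fin ρ → ℝ} {p : Fin ρ → ℝ} (hz : ∀ n, z n ∈ Ω)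
    (hlim : Tendsto z atTop (𝓝 p)) (hle : ∀ n, z n - μ • D ∈ C) : p ∈ Ω := by
  classical
  obtain ⟨B, hB, hBΩ, hcov⟩ := hco
  obtain ⟨f, c, hc, hf⟩ := exists_pos_functional hC.closed hC.add hC.smul hC.pointed
  have hfn : ∀ x ∈ C, 0 ≤ f x := fun x hx => (mul_nonneg hc.le (norm_nonneg x)).trans (hf x hx)
  have hint : (interior C).Nonempty := ⟨z 0, interior_maximal hΩC hΩ (hz 0)⟩
  obtain ⟨h, hhL, hhint, hhe⟩ := exists_dom hC hint
  obtain ⟨ε, hε, hεB⟩ := exists_eps hB hΩ hBΩ h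
  choose T hT t ht hb using fun n => hcov (z n) (hz n)
  -- bounds
  obtain ⟨M, hM⟩ := hB.bddAbove_image (f := fun x => f x) f.continuous.continuousOn
  have hM' : ∀ b ∈ B, f b ≤ M := fun b hb => hM (Set.mem_image_of_mem _ hb)
  have hM0 : 0 ≤ M := (hfn _ (hΩC (hBΩ (hb 0)))).trans (hM' _ (hb 0))
  have hTD : ∀ n, c ≤ f (T n D) := by
    intro n
    have h1 : T n D ≠ 0 := fun h0 => hD0 ((T n).injective (by rw [h0, map_zero]))
    have h2 := one_le_norm (hG.int _ (hT n) D hD) h1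
    have h3 := hf _ (hG.pres _ (hT n) D hDC)
    nlinarith
  have htM : ∀ n, t n * (μ * c) ≤ M := by
    intro n
    have h1 := hfn _ (hG.pres _ (hT n) _ (hle n))
    have h2 := hM' _ (hb n)
    simp only [map_sub, map_smul, smul_eq_mul] at h1 h2
    have h4 := mul_le_mul_of_nonneg_left (hTD n) hμ.le
    have h5 := mul_le_mul_of_nonneg_left (h4.trans (sub_nonneg.1 h1)) (ht n).le
    linarith
  obtain ⟨M₂, hM₂⟩ : ∃ M₂ : ℝ, ∀ n, f (z n) ≤ M₂ := by
    have h1 : Tendsto (fun n => f (z n)) atTop (𝓝 (f p)) := (f.continuous.tendsto _).comp hlim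
    obtain ⟨M₂, hM₂⟩ := h1.bddAbove_range
    exact ⟨M₂, fun n => hM₂ ⟨n, rfl⟩⟩
  have hM₂0 : 0 ≤ M₂ := (hfn _ (hΩC (hz 0))).trans (hM₂ 0)
  have hsym : ∀ n x, (T n).symm (T n x) = x := fun n x => (T n).symm_apply_apply x
  have hTh : ∀ n, ε * f ((T n).symm h) ≤ t n * f (z n) := by
    intro n
    have h1 := hfn _ (hG.pres _ (hG.symm _ (hT n)) _ (hΩC (hεB _ (hb n))))
    simp only [map_sub, map_smul, smul_eq_mul, hsym] at h1
    linarith
  have hh0 : h ≠ 0 := by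
    rintro rfl
    obtain ⟨τ, hτ, h1⟩ := interior_sub hhint D
    apply hD0
    refine hC.pointed D hDC ?_
    have h2 := hC.smul τ⁻¹ (inv_nonneg.2 hτ.le) _ (interior_subset h1)
    rwa [zero_sub, smul_neg, smul_smul, inv_mul_cancel₀ hτ.ne', one_smul] at h2
  have hfh : ∀ n, c ≤ f ((T n).symm h) := by
    intro n
    have h1 : (T n).symm h ≠ 0 := fun h0 => hh0 ((T n).symm.injective (by rw [h0, map_zero]))
    have h2 := one_le_norm (hG.int _ (hG.symm _ (hT n)) h hhL) h1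
    have h3 := hf _ (hG.pres _ (hG.symm _ (hT n)) h (interior_subset hhint))
    nlinarith
  have hlow : ∀ n, ε * c ≤ t n * M₂ := fun n =>
    (mul_le_mul_of_nonneg_left (hfh n) hε.le).trans ((hTh n).trans
      (mul_le_mul_of_nonneg_left (hM₂ n) (ht n).le))
  have hM₂pos : 0 < M₂ := by
    rcases hM₂0.eq_or_lt with h0 | h0
    · have h1 := hlow 0
      rw [← h0, mul_zero] at h1
      have := mul_pos hε hc
      linarith
    · exact h0
  obtain ⟨t₁, ht₁⟩ : ∃ t₁ : ℝ, t₁ = ε * c / M₂ := ⟨_, rfl⟩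
  obtain ⟨t₂, ht₂⟩ : ∃ t₂ : ℝ, t₂ = M / (μ * c) := ⟨_, rfl⟩
  have ht₁pos : 0 < t₁ := by rw [ht₁]; positivity
  have htIcc : ∀ n, t n ∈ Set.Icc t₁ t₂ := by
    intro n
    constructor
    · rw [ht₁, div_le_iff₀ hM₂pos]
      exact hlow n
    · rw [ht₂, le_div_iff₀ (by positivity)]
      exact htM n
  have ht₂0 : 0 ≤ t₂ := ht₁pos.le.trans ((htIcc 0).1.trans (htIcc 0).2)
  obtain ⟨R, hR⟩ : ∃ R : ℝ, R = 2 * (t₂ * M₂ / ε) / c := ⟨_, rfl⟩
  have hTR : ∀ n j, ‖(T n).symm (Pi.single j 1)‖ ≤ R := by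
    intro n j
    have a1 := hf _ (hG.pres _ (hG.symm _ (hT n)) _ (hhe j).1)
    have a2 := hf _ (hG.pres _ (hG.symm _ (hT n)) _ (hhe j).2)
    have a3 : f ((T n).symm h) ≤ t₂ * M₂ / ε := by
      rw [le_div_iff₀ hε, mul_comm]
      exact (hTh n).trans (mul_le_mul (htIcc n).2 (hM₂ n) (hfn _ (hΩC (hz n))) ht₂0)
    have a4 : (T n).symm (Pi.single j 1) = (1 / 2 : ℝ) • ((T n).symm (h + Pi.single j 1)
        - (T n).symm (h - Pi.single j 1)) := by
      rw [map_add, map_sub, add_sub_sub_cancel, ← two_smul ℝ, smul_smul]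
      norm_num
    have a5 : f ((T n).symm (h + Pi.single j 1)) + f ((T n).symm (h - Pi.single j 1))
        = 2 * f ((T n).symm h) := by
      simp only [map_add, map_sub]
      ring
    have a6 := norm_sub_le ((T n).symm (h + Pi.single j 1)) ((T n).symm (h - Pi.single j 1))
    rw [hR, le_div_iff₀ hc, a4, norm_smul, Real.norm_of_nonneg (by norm_num : (0 : ℝ) ≤ 1 / 2)]
    have a7 := mul_le_mul_of_nonneg_right a6 hc.le
    have a8 := hfh n
    have a9 : 0 ≤ t₂ * M₂ / ε := by linarith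
    linarith
  obtain ⟨𝓕, h𝓕⟩ : ∃ 𝓕 : Set ((Fin ρ → ℝ) ≃ₗ[ℝ] (Fin ρ → ℝ)), 𝓕 = {S | S ∈ 𝒢 ∧
    ∀ j, ‖S.symm (Pi.single j 1)‖ ≤ R} := ⟨_, rfl⟩
  have hfin : 𝓕.Finite := by
    have hinj : Function.Injective (fun (S : (Fin ρ → ℝ) ≃ₗ[ℝ] (Fin ρ → ℝ)) (j : Fin ρ) =>
        S.symm (Pi.single j 1)) := by
      intro S S' hSS
      have h1 : (S.symm : (Fin ρ → ℝ) →ₗ[ℝ] (Fin ρ → ℝ)) = S'.symm :=
        LinearMap.pi_ext' fun j => LinearMap.ext_ring (congrFun hSS j)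
      have h2 : S.symm = S'.symm := LinearEquiv.toLinearMap_injective h1
      rw [← LinearEquiv.symm_symm S, h2, LinearEquiv.symm_symm]
    refine ((Set.Finite.pi' fun _ : Fin ρ => finite_int (ρ := ρ) R).preimage hinj.injOn).subset ?_
    intro S hS
    rw [h𝓕] at hS
    intro j
    refine ⟨hG.int _ (hG.symm _ hS.1) _ fun i => ?_, hS.2 j⟩
    by_cases hij : i = j
    · subst hij
      exact ⟨1, by simp⟩
    · exact ⟨0, by simp [hij]⟩
  obtain ⟨Q, hQ⟩ : ∃ Q : Set (Fin ρ → ℝ), Q = ⋃ S ∈ 𝓕,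
    (fun q : ℝ × (Fin ρ → ℝ) => q.1⁻¹ • S.symm q.2) '' (Set.Icc t₁ t₂ ×ˢ B) := ⟨_, rfl⟩
  have hQc : IsClosed Q := by
    rw [hQ]
    refine hfin.isClosed_biUnion fun S _ => IsCompact.isClosed ?_
    refine (isCompact_Icc.prod hB).image_of_continuousOn ?_
    refine ContinuousOn.smul (continuousOn_fst.inv₀ fun q hq => ?_) ?_
    · exact (ht₁pos.trans_le hq.1.1).ne'
    · exact ((LinearMap.continuous_of_finiteDimensional
        (S.symm : (Fin ρ → ℝ) →ₗ[ℝ] (Fin ρ → ℝ))).comp continuous_snd).continuousOn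
  have hmem : ∀ n, z n ∈ Q := by
    intro n
    rw [hQ, Set.mem_iUnion₂]
    refine ⟨T n, ?_, (t n, t n • T n (z n)), ⟨htIcc n, hb n⟩, ?_⟩
    · rw [h𝓕]
      exact ⟨hT n, hTR n⟩
    · show (t n)⁻¹ • (T n).symm (t n • T n (z n)) = z n
      rw [map_smul, hsym, smul_smul, inv_mul_cancel₀ (ht n).ne', one_smul]
  have hp := hQc.mem_of_tendsto hlim (Eventually.of_forall hmem)
  rw [hQ, Set.mem_iUnion₂] at hp
  obtain ⟨S, hS, q, hq, rfl⟩ := hp
  rw [h𝓕] at hS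
  exact hΩs _ (inv_pos.2 (ht₁pos.trans_le hq.1.1)) _ (hΩG _ (hG.symm _ hS.1) _ (hBΩ hq.2))

/-- An open cone `Ω` contained in `C` on which the group acts cocompactly is the interior of `C`. -/
theorem eq_interior (hC : PC C) (hG : Lat 𝒢 C) (hΩ : IsOpen Ω) (hne : Ω.Nonempty) (hΩC : Ω ⊆ C)
    (hΩs : ∀ t : ℝ, 0 < t → ∀ x ∈ Ω, t • x ∈ Ω) (hΩG : ∀ T ∈ 𝒢, ∀ x ∈ Ω, T x ∈ Ω)
    (hco : Cocompact 𝒢 Ω) : Ω = interior C := by
  have hsub : Ω ⊆ interior C := interior_maximal hΩC hΩ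
  refine Set.Subset.antisymm hsub ?_
  by_cases hC0 : C ⊆ {0}
  · -- `C = {0}`
    intro x hx
    obtain ⟨w, hw⟩ := hne
    have h1 : x = 0 := hC0 (interior_subset hx)
    have h2 : w = 0 := hC0 (hΩC hw)
    rw [h1, ← h2]
    exact hw
  obtain ⟨h, hhL, hhint, -⟩ := exists_dom hC (hne.mono hsub)
  have hh0 : h ≠ 0 := by
    rintro rfl
    obtain ⟨v, hv, hv0⟩ := Set.not_subset.1 hC0
    apply hv0
    obtain ⟨τ, hτ, h1⟩ := interior_sub hhint v
    refine hC.pointed v hv ?_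
    have h2 := hC.smul τ⁻¹ (inv_nonneg.2 hτ.le) _ (interior_subset h1)
    rwa [zero_sub, smul_neg, smul_smul, inv_mul_cancel₀ hτ.ne', one_smul] at h2
  have hconv : Convex ℝ (interior C) := by
    apply Convex.interior
    intro a ha b hb s t hs ht _
    exact hC.add _ (hC.smul s hs a ha) _ (hC.smul t ht b hb)
  refine hconv.isPreconnected.subset_of_closure_inter_subset hΩ ?_ ?_
  · obtain ⟨w, hw⟩ := hne
    exact ⟨w, hsub hw, hw⟩
  · rintro p ⟨hp, hpi⟩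
    obtain ⟨μ, hμ, hμp⟩ := interior_sub hpi h
    obtain ⟨z, hz, hlim⟩ := mem_closure_iff_seq_limit.1 hp
    have h1 : Tendsto (fun n => z n - μ • h) atTop (𝓝 (p - μ • h)) := hlim.sub_const _
    have h2 := h1.eventually_mem (isOpen_interior.mem_nhds hμp)
    obtain ⟨n₀, hn₀⟩ := eventually_atTop.1 h2
    exact lim_mem hC hG hΩ hΩC hΩs hΩG hco hhL (interior_subset hhint) hh0 hμ
      (z := fun n => z (n + n₀)) (fun n => hz _) (hlim.comp (tendsto_add_atTop_nat n₀))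
      fun n => interior_subset (hn₀ _ (Nat.le_add_left _ _))

/-- Nonzero integral elements of `C` are in the interior if the group acts cocompactly on the
interior. -/
theorem int_of_integral (hC : PC C) (hG : Lat 𝒢 C) (hne : (interior C).Nonempty)
    (hGi : ∀ T ∈ 𝒢, ∀ x ∈ interior C, T x ∈ interior C)
    (hco : Cocompact 𝒢 (interior C)) {D : Fin ρ → ℝ} (hD : D ∈ IntL ρ) (hDC : D ∈ C)
    (hD0 : D ≠ 0) : D ∈ interior C := by
  obtain ⟨h, hh⟩ := hne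
  have hlim : Tendsto (fun k : ℕ => D + (1 / ((k : ℝ) + 1)) • h) atTop (𝓝 (D + (0 : ℝ) • h)) :=
    tendsto_const_nhds.add (tendsto_one_div_add_atTop_nhds_zero_nat.smul_const _)
  rw [zero_smul, add_zero] at hlim
  refine lim_mem hC hG isOpen_interior interior_subset
    (fun t ht x hx => interior_smul_mem hC.smul ht hx) hGi hco hD hDC hD0 one_pos
    (z := fun k : ℕ => D + (1 / ((k : ℝ) + 1)) • h) (fun n => ?_) hlim fun n => ?_
  · rw [add_comm]
    exact interior_add_mem hC.add (interior_smul_mem hC.smul (by positivity) hh) hDC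
  · show D + (1 / ((n : ℝ) + 1)) • h - (1 : ℝ) • D ∈ C
    rw [one_smul, add_sub_cancel_left]
    exact hC.smul _ (by positivity) _ (interior_subset hh)

/-- The closure of an open cone. -/
theorem IsOpenCone.pc (hΩ : IsOpenCone Ω) (hne : Ω.Nonempty) : PC (closure Ω) where
  closed := isClosed_closure
  add := fun x hx z hz => map_mem_closure₂ continuous_add hx hz fun _ ha _ hb => hΩ.add _ ha _ hb
  smul := fun t ht x hx => by
    rcases ht.eq_or_lt with h0 | h0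
    · rw [← h0, zero_smul]
      obtain ⟨w, hw⟩ := hne
      have hlim : Tendsto (fun k : ℕ => (1 / ((k : ℝ) + 1)) • w) atTop (𝓝 ((0 : ℝ) • w)) :=
        tendsto_one_div_add_atTop_nhds_zero_nat.smul_const _
      rw [zero_smul] at hlim
      exact mem_closure_of_tendsto hlim (Eventually.of_forall fun k =>
        hΩ.smul _ (by positivity) _ hw)
    · exact map_mem_closure (continuous_const_smul t) hx fun _ ha => hΩ.smul t h0 _ ha
  pointed := hΩ.pointed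

/-- A functional on a cone, an element at which its ratio with a positive functional is negative and
extremal. -/
theorem exists_extremal {P : Set (Fin ρ → ℝ)} (hP : PC P) {f : (Fin ρ → ℝ) →L[ℝ] ℝ} {c : ℝ}
    (hc : 0 < c) (hf : ∀ x ∈ P, c * ‖x‖ ≤ f x) (ℓ : (Fin ρ → ℝ) →L[ℝ] ℝ) {v : Fin ρ → ℝ}
    (hv : v ∈ P) (hℓ : ℓ v < 0) : ∃ e ∈ P, f e = 1 ∧ ℓ e < 0 ∧
      ∀ a : ℝ, 0 < a → ∀ z ∈ P, a • e - z ∈ P → z = f z • e := by
  have hfn : ∀ x ∈ P, 0 ≤ f x := fun x hx => (mul_nonneg hc.le (norm_nonneg x)).trans (hf x hx)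
  have hf0 : ∀ x ∈ P, f x = 0 → x = 0 := by
    intro x hx h0
    have h1 := hf x hx
    rw [h0] at h1
    have h2 : ‖x‖ ≤ 0 := by
      by_contra hcon
      push Not at hcon
      have := mul_pos hc hcon
      linarith
    exact norm_le_zero_iff.1 h2
  obtain ⟨A, hA⟩ : ∃ A : Set (Fin ρ → ℝ), A = P ∩ {x | f x = 1} := ⟨_, rfl⟩
  have hAc : IsCompact A := by
    refine Metric.isCompact_of_isClosed_isBounded ?_ ?_
    · rw [hA]
      exact hP.closed.inter (isClosed_eq f.continuous continuous_const)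
    · refine (Metric.isBounded_closedBall (x := (0 : Fin ρ → ℝ)) (r := 1 / c)).subset ?_
      intro x hx
      rw [hA] at hx
      rw [Metric.mem_closedBall, dist_zero_right, le_div_iff₀ hc, mul_comm]
      have h1 := hf x hx.1
      rwa [show f x = 1 from hx.2] at h1
  have hnorm : ∀ x ∈ P, f x ≠ 0 → (f x)⁻¹ • x ∈ A := by
    intro x hx h0
    rw [hA]
    refine ⟨hP.smul _ (inv_nonneg.2 (hfn x hx)) _ hx, ?_⟩
    show f ((f x)⁻¹ • x) = 1
    rw [map_smul, smul_eq_mul, inv_mul_cancel₀ h0]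
  have hfv : f v ≠ 0 := by
    intro h0
    rw [hf0 v hv h0, map_zero] at hℓ
    exact lt_irrefl _ hℓ
  obtain ⟨x₁, hx₁, hmin⟩ := hAc.exists_isMinOn ⟨_, hnorm v hv hfv⟩ ℓ.continuous.continuousOn
  have hmin' : ∀ x ∈ A, ℓ x₁ ≤ ℓ x := fun x hx => hmin hx
  have hneg : ℓ x₁ < 0 := by
    have h1 := hmin' _ (hnorm v hv hfv)
    rw [map_smul, smul_eq_mul] at h1
    have h2 : 0 < (f v)⁻¹ := inv_pos.2 (lt_of_le_of_ne (hfn v hv) (Ne.symm hfv))
    have h3 := mul_neg_of_pos_of_neg h2 hℓ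
    linarith
  obtain ⟨Φ, hΦ⟩ : ∃ Φ : Set (Fin ρ → ℝ), Φ = A ∩ {x | ℓ x = ℓ x₁} := ⟨_, rfl⟩
  have hΦc : IsCompact Φ := by
    rw [hΦ]
    exact hAc.inter_right (isClosed_eq ℓ.continuous continuous_const)
  obtain ⟨e, he⟩ := hΦc.extremePoints_nonempty ⟨x₁, by rw [hΦ]; exact ⟨hx₁, rfl⟩⟩
  have heΦ : e ∈ Φ := extremePoints_subset he
  have heA : e ∈ A := by rw [hΦ] at heΦ; exact heΦ.1
  have heℓ : ℓ e = ℓ x₁ := by rw [hΦ] at heΦ; exact heΦ.2
  have heP : e ∈ P := by rw [hA] at heA; exact heA.1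
  have hfe : f e = 1 := by rw [hA] at heA; exact heA.2
  refine ⟨e, heP, hfe, by rw [heℓ]; exact hneg, fun a ha z hz haz => ?_⟩
  obtain ⟨b, hb⟩ : ∃ b : ℝ, b = f (a • e - z) := ⟨_, rfl⟩
  have hab : f z + b = a := by
    rw [hb, map_sub, map_smul, smul_eq_mul, hfe]
    ring
  rcases eq_or_ne (f z) 0 with h0 | h0
  · rw [h0, zero_smul]
    exact hf0 z hz h0
  rcases eq_or_ne b 0 with h1 | h1
  · have h2 := hf0 _ haz (by rw [← hb, h1])
    rw [sub_eq_zero] at h2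
    rw [h1, add_zero] at hab
    rw [hab, h2]
  · have hz1 := hnorm z hz h0
    have hz2 := hnorm _ haz (by rw [← hb]; exact h1)
    rw [← hb] at hz2
    have hb0 : 0 < b := lt_of_le_of_ne (by rw [hb]; exact hfn _ haz) (Ne.symm h1)
    have hfz : 0 < f z := lt_of_le_of_ne (hfn _ hz) (Ne.symm h0)
    have hcomb : (f z / a) • ((f z)⁻¹ • z) + (b / a) • (b⁻¹ • (a • e - z)) = e := by
      rw [smul_smul, smul_smul]
      have e1 : f z / a * (f z)⁻¹ = a⁻¹ := by field_simp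
      have e2 : b / a * b⁻¹ = a⁻¹ := by field_simp
      rw [e1, e2, ← smul_add, add_sub_cancel, smul_smul, inv_mul_cancel₀ ha.ne', one_smul]
    obtain ⟨z1, e1⟩ : ∃ z1, z1 = (f z)⁻¹ • z := ⟨_, rfl⟩
    obtain ⟨z2, e2⟩ : ∃ z2, z2 = b⁻¹ • (a • e - z) := ⟨_, rfl⟩
    rw [← e1, ← e2] at hcomb
    rw [← e1] at hz1
    rw [← e2] at hz2
    have hℓ1 := hmin' _ hz1
    have hℓ2 := hmin' _ hz2
    have hℓe := congrArg ℓ hcomb
    rw [map_add, map_smul, map_smul, smul_eq_mul, smul_eq_mul, heℓ] at hℓe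
    have hs : f z / a + b / a = 1 := by rw [← add_div, hab, div_self ha.ne']
    have p1 : 0 < f z / a := div_pos hfz ha
    have p2 : 0 < b / a := div_pos hb0 ha
    have hs' : ℓ x₁ * (f z / a) + ℓ x₁ * (b / a) = ℓ x₁ := by rw [← mul_add, hs, mul_one]
    have q1 : ℓ z1 = ℓ x₁ := by
      refine le_antisymm ?_ hℓ1
      by_contra hcon
      push Not at hcon
      have := mul_lt_mul_of_pos_left hcon p1
      have := mul_le_mul_of_nonneg_left hℓ2 p2.le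
      linarith
    have q2 : ℓ z2 = ℓ x₁ := by
      refine le_antisymm ?_ hℓ2
      by_contra hcon
      push Not at hcon
      have := mul_lt_mul_of_pos_left hcon p2
      have := mul_le_mul_of_nonneg_left hℓ1 p1.le
      linarith
    have m1 : z1 ∈ Φ := by rw [hΦ]; exact ⟨hz1, q1⟩
    have m2 : z2 ∈ Φ := by rw [hΦ]; exact ⟨hz2, q2⟩
    have h3 := (mem_extremePoints.1 he).2 _ m1 _ m2 ⟨f z / a, b / a, p1, p2, hs, hcomb⟩
    rw [← h3.1, e1, smul_smul, mul_inv_cancel₀ h0, one_smul]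

/-- Rigidity: an invariant closed convex cone which meets `Ω` contains `Ω`. -/
theorem rigid (hΩ : IsOpenCone Ω) (hsym : ∀ T ∈ 𝒢, T.symm ∈ 𝒢) (hΩG : ∀ T ∈ 𝒢, ∀ x ∈ Ω, T x ∈ Ω)
    (hco : Cocompact 𝒢 Ω) {D : Set (Fin ρ → ℝ)} (hDc : IsClosed D)
    (hDa : ∀ x ∈ D, ∀ z ∈ D, x + z ∈ D) (hDs : ∀ t : ℝ, 0 ≤ t → ∀ x ∈ D, t • x ∈ D)
    (hDG : ∀ T ∈ 𝒢, ∀ x ∈ D, T x ∈ D) {x₀ : Fin ρ → ℝ} (hx₀ : x₀ ∈ Ω) (hx₀D : x₀ ∈ D) :
    closure Ω ⊆ D := by
  classical
  by_contra hcon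
  obtain ⟨v, hv, hvD⟩ := Set.not_subset.1 hcon
  have hP := hΩ.pc ⟨x₀, hx₀⟩
  have hΩP : Ω ⊆ closure Ω := subset_closure
  have hPG : ∀ T ∈ 𝒢, ∀ x ∈ closure Ω, T x ∈ closure Ω := fun T hT x hx =>
    map_mem_closure (LinearMap.continuous_of_finiteDimensional
      (T : (Fin ρ → ℝ) →ₗ[ℝ] (Fin ρ → ℝ))) hx fun a ha => hΩG T hT a ha
  obtain ⟨f, c, hc, hf⟩ := exists_pos_functional hP.closed hP.add hP.smul hP.pointed
  have hfn : ∀ x ∈ closure Ω, 0 ≤ f x := fun x hx =>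
    (mul_nonneg hc.le (norm_nonneg x)).trans (hf x hx)
  -- a separating functional
  have hconv : Convex ℝ D := by
    intro a ha b hb s t hs ht _
    exact hDa _ (hDs s hs a ha) _ (hDs t ht b hb)
  obtain ⟨ℓ, s, h1, h2⟩ := geometric_hahn_banach_point_closed hconv hDc hvD
  have hD0 : (0 : Fin ρ → ℝ) ∈ D := by
    have := hDs 0 le_rfl _ hx₀D
    rwa [zero_smul] at this
  have hs0 : s < 0 := by
    have := h2 0 hD0
    rwa [map_zero] at this
  have hℓD : ∀ x ∈ D, 0 ≤ ℓ x := by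
    intro x hx
    by_contra hneg
    push Not at hneg
    have h3 := h2 ((s / ℓ x) • x) (hDs _ (div_nonneg_of_nonpos hs0.le hneg.le) x hx)
    rw [map_smul, smul_eq_mul, div_mul_cancel₀ _ hneg.ne] at h3
    exact lt_irrefl _ h3
  obtain ⟨e, heP, hfe, hℓe, hext⟩ := exists_extremal hP hc hf ℓ hv (by linarith)
  obtain ⟨B, hB, hBΩ, hcov⟩ := hco
  obtain ⟨ε, hε, hεB⟩ := exists_eps hB hΩ.isOpen hBΩ x₀
  obtain ⟨ε', hε', hεB'⟩ : ∃ ε' : ℝ, 0 < ε' ∧ ∀ b ∈ B, x₀ - ε' • b ∈ Ω := by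
    obtain ⟨δ, hδ, hball⟩ := Metric.isOpen_iff.1 hΩ.isOpen x₀ hx₀
    obtain ⟨R, hR⟩ := hB.isBounded.exists_norm_le
    refine ⟨δ / (2 * (|R| + 1)), by positivity, fun b hb => hball ?_⟩
    rw [Metric.mem_ball, dist_eq_norm, sub_sub_cancel_left, norm_neg, norm_smul,
      Real.norm_of_nonneg (by positivity), div_mul_eq_mul_div, div_lt_iff₀ (by positivity)]
    have h3 := (hR b hb).trans (le_abs_self R)
    have h4 := abs_nonneg R
    nlinarith
  obtain ⟨z, hz, hlim⟩ := mem_closure_iff_seq_limit.1 heP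
  choose T hT t ht hb using fun n => hcov (z n) (hz n)
  obtain ⟨w, hw⟩ : ∃ w : ℕ → Fin ρ → ℝ, ∀ n, w n = (t n)⁻¹ • (T n).symm x₀ := ⟨_, fun _ => rfl⟩
  have hwD : ∀ n, w n ∈ D := fun n => by
    rw [hw]
    exact hDs _ (inv_pos.2 (ht n)).le _ (hDG _ (hsym _ (hT n)) _ hx₀D)
  have hwΩ : ∀ n, w n ∈ Ω := fun n => by
    rw [hw]
    exact hΩ.smul _ (inv_pos.2 (ht n)) _ (hΩG _ (hsym _ (hT n)) _ hx₀)
  have hback : ∀ n, (t n)⁻¹ • (T n).symm (t n • T n (z n)) = z n := fun n => by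
    rw [map_smul, LinearEquiv.symm_apply_apply, smul_smul, inv_mul_cancel₀ (ht n).ne', one_smul]
  have hw1 : ∀ n, z n - ε • w n ∈ closure Ω := by
    intro n
    have h3 := hP.smul _ (inv_pos.2 (ht n)).le _ (hPG _ (hsym _ (hT n)) _ (hΩP (hεB _ (hb n))))
    rw [map_sub, smul_sub, hback, map_smul, smul_comm, ← hw] at h3
    exact h3
  have hw2 : ∀ n, w n - ε' • z n ∈ closure Ω := by
    intro n
    have h3 := hP.smul _ (inv_pos.2 (ht n)).le _ (hPG _ (hsym _ (hT n)) _ (hΩP (hεB' _ (hb n))))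
    rw [map_sub, smul_sub, map_smul _ ε', smul_comm _ ε', hback, ← hw] at h3
    exact h3
  -- a limit
  obtain ⟨M, hM⟩ : ∃ M : ℝ, ∀ n, f (z n) ≤ M := by
    have h1 : Tendsto (fun n => f (z n)) atTop (𝓝 (f e)) := (f.continuous.tendsto _).comp hlim
    obtain ⟨M, hM⟩ := h1.bddAbove_range
    exact ⟨M, fun n => hM ⟨n, rfl⟩⟩
  have hwb : ∀ n, w n ∈ Metric.closedBall (0 : Fin ρ → ℝ) (M / ε / c) := by
    intro n
    rw [Metric.mem_closedBall, dist_zero_right, le_div_iff₀ hc, le_div_iff₀ hε]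
    have h3 := hf _ (hΩP (hwΩ n))
    have h4 := hfn _ (hw1 n)
    rw [map_sub, map_smul, smul_eq_mul] at h4
    have h5 := mul_le_mul_of_nonneg_left h3 hε.le
    have h6 := hM n
    linarith
  obtain ⟨w₀, -, φ, hφ, hwlim⟩ := tendsto_subseq_of_bounded Metric.isBounded_closedBall hwb
  have hzlim := hlim.comp hφ.tendsto_atTop
  have hw₀D : w₀ ∈ D := hDc.mem_of_tendsto hwlim (Eventually.of_forall fun n => hwD _)
  have hw₀P : w₀ ∈ closure Ω := isClosed_closure.mem_of_tendsto hwlim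
    (Eventually.of_forall fun n => hΩP (hwΩ _))
  have h3 : e - ε • w₀ ∈ closure Ω := isClosed_closure.mem_of_tendsto
    (hzlim.sub (hwlim.const_smul ε)) (Eventually.of_forall fun n => hw1 _)
  have h4 : w₀ - ε' • e ∈ closure Ω := isClosed_closure.mem_of_tendsto
    (hwlim.sub (hzlim.const_smul ε')) (Eventually.of_forall fun n => hw2 _)
  have h5 := hext ε⁻¹ (inv_pos.2 hε) w₀ hw₀P (by
    have h6 := hP.smul _ (inv_pos.2 hε).le _ h3
    rwa [smul_sub, smul_smul, inv_mul_cancel₀ hε.ne', one_smul] at h6)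
  have h6 : 0 < f w₀ := by
    have h7 := hfn _ h4
    rw [map_sub, map_smul, smul_eq_mul, hfe, mul_one] at h7
    linarith
  have h7 := hℓD _ hw₀D
  rw [h5, map_smul, smul_eq_mul] at h7
  have h8 := mul_neg_of_pos_of_neg h6 hℓe
  linarith

/-- A compact subset of the interior generates a closed cone in the interior. -/
theorem exists_closed (hC : PC C) {B : Set (Fin ρ → ℝ)} (hB : IsCompact B)
    (hBC : B ⊆ interior C) (hne : (interior C).Nonempty) : ∃ K : Set (Fin ρ → ℝ), IsClosed K ∧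
      (∀ t : ℝ, 0 < t → ∀ x ∈ K, t • x ∈ K) ∧ (∀ x ∈ K, x ≠ 0 → x ∈ interior C) ∧ B ⊆ K := by
  obtain ⟨h, hh⟩ := hne
  obtain ⟨f, c, hc, hf⟩ := exists_pos_functional hC.closed hC.add hC.smul hC.pointed
  have hfn : ∀ x ∈ C, 0 ≤ f x := fun x hx => (mul_nonneg hc.le (norm_nonneg x)).trans (hf x hx)
  obtain ⟨ε, hε, hεB⟩ := exists_eps hB isOpen_interior hBC h
  obtain ⟨M, hM⟩ := hB.bddAbove_image (f := fun x => f x) f.continuous.continuousOn
  have hM' : ∀ b ∈ B, f b ≤ |M| + 1 := fun b hb => by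
    have h1 : f b ≤ M := hM (Set.mem_image_of_mem _ hb)
    have h2 := le_abs_self M
    linarith
  have hM0 : 0 < |M| + 1 := by positivity
  obtain ⟨κ, hκ⟩ : ∃ κ : ℝ, κ = ε / (|M| + 1) := ⟨_, rfl⟩
  have hκ0 : 0 < κ := by rw [hκ]; positivity
  refine ⟨{x | x ∈ C ∧ x - (κ * f x) • h ∈ C}, ?_, ?_, ?_, ?_⟩
  · refine hC.closed.inter (hC.closed.preimage ?_)
    exact continuous_id.sub ((continuous_const.mul f.continuous).smul continuous_const)
  · rintro t ht x ⟨hx, hx'⟩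
    refine ⟨hC.smul t ht.le _ hx, ?_⟩
    have h1 := hC.smul t ht.le _ hx'
    rw [smul_sub, smul_smul] at h1
    have e : t * (κ * f x) = κ * f (t • x) := by
      rw [map_smul, smul_eq_mul]
      ring
    rwa [e] at h1
  · rintro x ⟨hx, hx'⟩ hx0
    have h1 : 0 < f x := by
      have h2 := hf x hx
      have h3 := norm_pos_iff.2 hx0
      nlinarith
    have h2 : (κ * f x) • h ∈ interior C := interior_smul_mem hC.smul (by positivity) hh
    have h3 := interior_add_mem hC.add h2 hx'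
    rwa [add_sub_cancel] at h3
  · intro b hb
    refine ⟨interior_subset (hBC hb), ?_⟩
    have h1 : b - (κ * f b) • h = (b - ε • h) + (ε - κ * f b) • h := by
      rw [sub_smul]
      abel
    rw [h1]
    refine hC.add _ (interior_subset (hεB b hb)) _ (hC.smul _ ?_ _ (interior_subset hh))
    have h2 := hM' b hb
    rw [hκ, div_mul_eq_mul_div, sub_nonneg, div_le_iff₀ hM0]
    exact mul_le_mul_of_nonneg_left h2 hε.le

end Pool.Agent.L0h18.CO
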