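import Pool.Agent.L0h18.CO.Nef
import Pool.Agent.N110.CC.SA
import Pool.Agent.N110.CC.R

/-!
Pseudo-effective divisors on the varieties (and their finite images) with a group of
pseudo-automorphisms which acts cocompactly on an open cone of divisor classes.
-/

set_option autoImplicit false
set_option linter.unusedSectionVars false

open FF Pool.Agent.W602.GT Pool.Agent.Y172 Pool.Agent.R887
open Pool.Agent.N110 Pool.Agent.N110.PA Pool.Agent.N110.NV Pool.Agent.N492.PA Pool.Agent.N110.CC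
open Pool.Agent.N165.KM (IntL interior_add_mem interior_smul_mem)

namespace Pool.Agent.L0h18.CO

/-- rational elements of the cone are integral after multiplication by a positive integer -/
theorem rat_of_int {ρ : ℕ} {C : Set (Fin ρ → ℝ)} (hC : PC C)
    (h : ∀ D : Fin ρ → ℝ, D ∈ IntL ρ → D ∈ C → D ≠ 0 → D ∈ interior C) {q : Fin ρ → ℚ}
    (hq : toR q ∈ C) (hq0 : q ≠ 0) : toR q ∈ interior C := by
  obtain ⟨m, hm⟩ : ∃ m : ℕ, m = ∏ i, (q i).den := ⟨_, rfl⟩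
  have hm0 : 0 < m := by
    rw [hm]
    exact Finset.prod_pos fun i _ => (q i).pos
  have hmR : (0 : ℝ) < m := by exact_mod_cast hm0
  have hint : (m : ℝ) • toR q ∈ IntL ρ := by
    intro i
    obtain ⟨t, ht⟩ : (q i).den ∣ m := by
      rw [hm]
      exact Finset.dvd_prod_of_mem _ (Finset.mem_univ i)
    refine ⟨t * (q i).num, ?_⟩
    have h1 : ((m : ℚ)) * q i = ((t * (q i).num : ℤ) : ℚ) := by
      rw [ht]
      push_cast
      have h2 : (q i) * ((q i).den : ℚ) = (q i).num := Rat.mul_den_eq_num (q i)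
      calc ((q i).den : ℚ) * t * q i = t * (q i * (q i).den) := by ring
        _ = t * (q i).num := by rw [h2]
    show (m : ℝ) * ((q i : ℚ) : ℝ) = _
    exact_mod_cast h1
  have h1 := h _ hint (hC.smul _ hmR.le _ hq) (by
    intro h0
    apply hq0
    funext i
    have h2 := congrFun h0 i
    have h3 : (m : ℝ) * ((q i : ℚ) : ℝ) = 0 := h2
    have h4 := (mul_eq_zero.1 h3).resolve_left hmR.ne'
    exact_mod_cast h4)
  have h2 := interior_smul_mem hC.smul (inv_pos.2 hmR) h1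
  rwa [smul_smul, inv_mul_cancel₀ hmR.ne', one_smul] at h2

section

variable {K : Type} [Field K] [Algebra ℂ K] {N n ρ : ℕ} {y : Fin (N + 1) → K}
  {c : Place ℂ K → Fin ρ → ℤ} {𝒮 : Subgroup (K ≃ₐ[ℂ] K)}

/-- rational pseudo-effective classes are zero or big -/
theorem rat_big (hy : NormalModel y) (hn : Algebra.trdeg ℂ K = n) (hn0 : 0 < n)
    (hc : PicardBasis y c) (h𝒮 : ∀ φ ∈ 𝒮, PseudoAut φ y) {Ω : Set (Fin ρ → ℝ)}
    (hΩ : IsOpenCone Ω) (hΩG : ∀ T ∈ pulls y c 𝒮, ∀ x ∈ Ω, T x ∈ Ω)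
    (hco : Cocompact (pulls y c 𝒮) Ω) (hex : (Ω ∩ closure (effCone y c)).Nonempty)
    {q : Fin ρ → ℚ} (hq : toR q ∈ CE y c) (hq0 : q ≠ 0) : toR q ∈ interior (CE y c) := by
  have hpc := pc_eff hc.numClasses
  have hlat := lat hy hc h𝒮
  obtain ⟨h1, -⟩ := cone_eq hy hn hn0 hc h𝒮 hΩ hΩG hco hex
  have h2 : Ω = interior (CE y c) := h1.trans (interior_eff hy hc)
  refine rat_of_int hpc (fun D hD hDC hD0 => ?_) hq hq0
  refine int_of_integral hpc hlat ?_ ?_ ?_ hD hDC hD0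
  · rw [← h2]
    exact hex.mono Set.inter_subset_left
  · rw [← h2]
    exact hΩG
  · rw [← h2]
    exact hco

/-- **Semiampleness up to numerical equivalence.** -/
theorem sa_main (hy : NormalModel y) (hn : Algebra.trdeg ℂ K = n) (hn0 : 0 < n)
    (hc : PicardBasis y c) (h𝒮 : ∀ φ ∈ 𝒮, IsAut φ y) {Ω : Set (Fin ρ → ℝ)}
    (hΩ : IsOpenCone Ω) (hΩG : ∀ T ∈ pulls y c 𝒮, ∀ x ∈ Ω, T x ∈ Ω)
    (hco : Cocompact (pulls y c 𝒮) Ω) (hex : (Ω ∩ closure (effCone y c)).Nonempty)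
    {L : Place ℂ K → ℚ} (hL : {P | IsPrimeDivisor y P ∧ L P ≠ 0}.Finite) (hps : PsefD y L) :
    ∃ m : ℕ, 1 ≤ m ∧ ∃ D : Place ℂ K → ℤ, IsFree y n D ∧
      cls y (cQ c) (fun P => m * L P - D P) = 0 := by
  have h1 := Pool.Agent.N618.CC.leafPSCL K N ρ y hy (cQ c) hc.numClasses.principal L hL hps
  by_cases h0 : cls y (cQ c) L = 0
  · refine ⟨1, le_rfl, fun _ => 0, free_zero hy, ?_⟩
    have h2 : (fun P => ((1 : ℕ) : ℚ) * L P - (((0 : ℤ) : ℚ))) = L := by
      funext P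
      simp
    rw [h2, h0]
  · have h2 := rat_big hy hn hn0 hc (fun φ hφ => isAut_ps hy (h𝒮 φ hφ)) hΩ hΩG hco hex h1 h0
    obtain ⟨h3, -, h4⟩ := cone_eq_nef hy hn hn0 hc h𝒮 hΩ hΩG hco hex
    have h5 : interior (nefCone y n c) = interior (CE y c) :=
      h4.symm.trans (h3.trans (interior_eff hy hc))
    have h6 : interior (CE y c) ⊆ coneOf {z | ∃ D, IsFree y n D ∧ z = divClass y c D} := by
      rw [← h5]
      refine interior_closure_sub ?_
      change (interior (nefCone y n c)).Nonempty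
      rw [h5]
      exact ⟨_, h2⟩
    exact free_of_class hy hL (h6 h2)

theorem semiample_num (hc : PicardBasis y c)
    {L : Place ℂ K → ℚ} (hL : {P | IsPrimeDivisor y P ∧ L P ≠ 0}.Finite)
    (h : ∃ m : ℕ, 1 ≤ m ∧ ∃ D : Place ℂ K → ℤ, IsFree y n D ∧
      cls y (cQ c) (fun P => m * L P - D P) = 0) :
    ∃ L' : Place ℂ K → ℚ, SemiampleD y n L' ∧ PsefD y (fun P => L P - L' P) ∧
      PsefD y (fun P => L' P - L P) := by
  obtain ⟨m, hm, D, hD, h0⟩ := h
  have hm0 : (m : ℚ) ≠ 0 := by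
    have : 0 < m := hm
    exact_mod_cast this.ne'
  have hDf : Fin0 y (fun P => (D P : ℚ)) := by
    refine hD.1.subset ?_
    rintro P ⟨h1, h2⟩
    exact ⟨h1, fun h3 => h2 (by show ((D P : ℤ) : ℚ) = 0; rw [h3]; simp)⟩
  have h1 : ∀ t : ℚ, Fin0 y (fun P => t * (m * L P - D P)) ∧
      cls y (cQ c) (fun P => t * (m * L P - D P)) = 0 := fun t =>
    ⟨(((Fin0.smul hL (m : ℚ)).sub hDf).smul t), by rw [cls_smul, h0, smul_zero]⟩
  refine ⟨fun P => (m : ℚ)⁻¹ * D P, ⟨m, hm, D, hD, fun P _ => ?_⟩, ?_, ?_⟩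
  · rw [← mul_assoc, mul_inv_cancel₀ hm0, one_mul]
  · have h2 := h1 (m : ℚ)⁻¹
    have h3 : (fun P => L P - (m : ℚ)⁻¹ * D P) = fun P => (m : ℚ)⁻¹ * (m * L P - D P) := by
      funext P
      field_simp
    rw [h3]
    exact psef_of_zero hc.numClasses h2.1 h2.2
  · have h2 := h1 (-(m : ℚ)⁻¹)
    have h3 : (fun P => (m : ℚ)⁻¹ * D P - L P) = fun P => -(m : ℚ)⁻¹ * (m * L P - D P) := by
      funext P
      field_simp
      ring
    rw [h3]
    exact psef_of_zero hc.numClasses h2.1 h2.2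

theorem semiample_q (hy : NormalModel y) (hc : PicardBasis y c) (hq : IrregularityZero y)
    {L : Place ℂ K → ℚ} (hL : {P | IsPrimeDivisor y P ∧ L P ≠ 0}.Finite)
    (h : ∃ m : ℕ, 1 ≤ m ∧ ∃ D : Place ℂ K → ℤ, IsFree y n D ∧
      cls y (cQ c) (fun P => m * L P - D P) = 0) :
    SemiampleD y n L := by
  obtain ⟨m, hm, D, hD, h0⟩ := h
  have hDf : Fin0 y (fun P => (D P : ℚ)) := by
    refine hD.1.subset ?_
    rintro P ⟨h1, h2⟩
    exact ⟨h1, fun h3 => h2 (by show ((D P : ℤ) : ℚ) = 0; rw [h3]; simp)⟩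
  have hf : Fin0 y (fun P => m * L P - D P) := (Fin0.smul hL (m : ℚ)).sub hDf
  have h1 := psef_of_zero hc.numClasses hf h0
  have h2 := psef_of_zero hc.numClasses (fin_neg hf) (by rw [cls_neg, h0, neg_zero])
  obtain ⟨k, hk, f, hf0, hk2⟩ := torsion hy hq hf h1 h2
  have h3 : ∀ P, IsPrimeDivisor y P →
      (((k : ℤ) * D P + P.ord f : ℤ) : ℚ) = ((k * m : ℕ) : ℚ) * L P := by
    intro P hP
    push_cast
    rw [hk2 P hP]
    ring
  refine ⟨k * m, Nat.one_le_iff_ne_zero.2 (by positivity), fun P => (k : ℤ) * D P + P.ord f,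
    free_princ (free_nsmul hy hD k) hf0 ?_ (fun P _ => rfl), h3⟩
  refine hL.subset ?_
  rintro P ⟨hP, h4⟩
  refine ⟨hP, fun h5 => h4 ?_⟩
  have h6 := h3 P hP
  rw [h5, mul_zero] at h6
  exact_mod_cast h6

end

end Pool.Agent.L0h18.CO
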