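import Pool.Agent.N110.CC.Res
import Pool.Agent.N110.CC.HRes
import Pool.Agent.N110.CC.W2
import Pool.Agent.L0h18.CO.Conv

/-!
Groups of pseudo-automorphisms acting cocompactly on an open cone of divisor classes.
-/

set_option autoImplicit false
set_option linter.unusedSectionVars false

open FF Pool.Agent.W602.GT Pool.Agent.Y172 Pool.Agent.R887
open Pool.Agent.Y167 (cone cone_image cone_ind zero_mem_cone mem_cone_self cone_add cone_smul
  cone_mono)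
open Pool.Agent.N110 Pool.Agent.N110.PA Pool.Agent.N110.NV Pool.Agent.N492.PA Pool.Agent.N110.CC
open Pool.Agent.N165.KM (IntL Sandwich HasFD interior_add_mem interior_smul_mem)
open Filter Topology

namespace Pool.Agent.L0h18.CO

section

variable {K : Type} [Field K] [Algebra ℂ K] {N n ρ : ℕ} {y : Fin (N + 1) → K}
  {c : Place ℂ K → Fin ρ → ℤ} {𝒮 𝒯 : Subgroup (K ≃ₐ[ℂ] K)}

/-- The pull backs of divisor classes by the elements of `𝒮`. -/
def pulls (y : Fin (N + 1) → K) (c : Place ℂ K → Fin ρ → ℤ) (𝒮 : Subgroup (K ≃ₐ[ℂ] K)) :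
    Set ((Fin ρ → ℝ) ≃ₗ[ℝ] (Fin ρ → ℝ)) := {T | ∃ ψ ∈ 𝒮, IsPullBack y c ψ T}

theorem mem_pulls (hc : PicardBasis y c) {M : (K ≃ₐ[ℂ] K) → Matrix (Fin ρ) (Fin ρ) ℤ}
    (hM : Rep y c 𝒮 M) {T : (Fin ρ → ℝ) ≃ₗ[ℝ] (Fin ρ → ℝ)} :
    T ∈ pulls y c 𝒮 ↔ ∃ ψ : 𝒮, T = hM.TE ψ := by
  constructor
  · rintro ⟨ψ, hψ, hT⟩
    exact ⟨⟨ψ, hψ⟩, pull_ext hc hT (hM.isPull ⟨ψ, hψ⟩)⟩
  · rintro ⟨ψ, rfl⟩
    exact ⟨ψ, ψ.2, hM.isPull ψ⟩

theorem lat (hy : NormalModel y) (hc : PicardBasis y c) (h𝒮 : ∀ φ ∈ 𝒮, PseudoAut φ y) :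
    Lat (pulls y c 𝒮) (CE y c) := by
  obtain ⟨M, hM⟩ := exists_rep hy hc h𝒮
  refine ⟨fun T hT x hx => ?_, fun T hT x hx => ?_, fun T hT => ?_⟩
  · obtain ⟨ψ, rfl⟩ := (mem_pulls hc hM).1 hT
    rw [hM.TE_apply]
    exact TR_int _ hx
  · obtain ⟨ψ, rfl⟩ := (mem_pulls hc hM).1 hT
    rw [hM.TE_apply]
    exact pres_S hy hc hM ψ ψ.2 x hx
  · obtain ⟨ψ, rfl⟩ := (mem_pulls hc hM).1 hT
    rw [mem_pulls hc hM]
    exact ⟨ψ⁻¹, LinearEquiv.ext fun x => rfl⟩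

theorem mov_pres (hy : NormalModel y) (h𝒮 : ∀ φ ∈ 𝒮, PseudoAut φ y)
    {T : (Fin ρ → ℝ) ≃ₗ[ℝ] (Fin ρ → ℝ)} (hT : T ∈ pulls y c 𝒮) {x : Fin ρ → ℝ}
    (hx : x ∈ movCone y c) : T x ∈ movCone y c := by
  obtain ⟨ψ, hψ, hT⟩ := hT
  refine closure_coneOf_map T.toLinearMap ?_ hx
  rintro _ ⟨D', hD', rfl⟩
  have h4 := Pool.Agent.N608.CC.leafMOV K N ρ y hy c ψ (h𝒮 ψ hψ) T hT D' hD'.1
  exact ⟨_, h4.2 hD', h4.1.symm⟩

/-- The big cone. -/
theorem interior_eff (hy : NormalModel y) (hc : PicardBasis y c) :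
    interior (effCone y c) = interior (CE y c) := by
  obtain ⟨hE1, hE2⟩ := Pool.Agent.N40.CC.leafEFF K N ρ y hy c hc
  exact Set.Subset.antisymm (interior_mono hE1) (interior_maximal hE2 isOpen_interior)

/-- The first part: the cone is the big cone and it is contained in the movable cone. -/
theorem cone_eq (hy : NormalModel y) (hn : Algebra.trdeg ℂ K = n) (hn0 : 0 < n)
    (hc : PicardBasis y c) (h𝒮 : ∀ φ ∈ 𝒮, PseudoAut φ y) {Ω : Set (Fin ρ → ℝ)}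
    (hΩ : IsOpenCone Ω) (hΩG : ∀ T ∈ pulls y c 𝒮, ∀ x ∈ Ω, T x ∈ Ω)
    (hco : Cocompact (pulls y c 𝒮) Ω) (hex : (Ω ∩ closure (effCone y c)).Nonempty) :
    Ω = interior (effCone y c) ∧ effCone y c ⊆ movCone y c := by
  have hpc := pc_eff hc.numClasses
  have hlat := lat hy hc h𝒮
  obtain ⟨x₀, hx₀, hx₀'⟩ := hex
  have hx₀C := closure_eff hy hc hx₀'
  have h1 : closure Ω ⊆ CE y c := rigid hΩ hlat.symm hΩG hco hpc.closed hpc.add hpc.smul
    hlat.pres hx₀ hx₀C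
  have h2 : Ω = interior (CE y c) := eq_interior hpc hlat hΩ.isOpen ⟨x₀, hx₀⟩
    (subset_closure.trans h1) hΩ.smul hΩG hco
  obtain ⟨i, hi⟩ := hy.ne
  obtain ⟨Hy, hHe, hH⟩ := exists_hyp hy hi
  obtain ⟨h, hh⟩ : ∃ h, h = toR (cls y (cQ c) Hy) := ⟨_, rfl⟩
  have hint : h ∈ interior (CE y c) := hh ▸ hyp_intN hy hc hi hHe hH
  obtain ⟨D, -, hDm, hD⟩ := Pool.Agent.N93.CC.leafHYP K N n ρ y hy hn hn0 c i hi Hy hHe hH
  have hmem : h ∈ movCone y c := by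
    rw [hh, ← hD]
    exact subset_closure (coneOf_self ⟨D, hDm, rfl⟩)
  have h3 : closure Ω ⊆ movCone y c := rigid hΩ hlat.symm hΩG hco isClosed_closure
    (fun x hx z hz => closure_coneOf_add hx hz) (fun t ht x hx => closure_coneOf_smul hx ht)
    (fun T hT x hx => mov_pres hy h𝒮 hT hx) (by rw [h2]; exact hint) hmem
  refine ⟨h2.trans (interior_eff hy hc).symm, fun x hx => h3 ?_⟩
  have hxC : x ∈ CE y c := (Pool.Agent.N40.CC.leafEFF K N ρ y hy c hc).1 hx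
  have hlim : Tendsto (fun k : ℕ => x + (1 / ((k : ℝ) + 1)) • h) atTop (𝓝 (x + (0 : ℝ) • h)) :=
    tendsto_const_nhds.add (tendsto_one_div_add_atTop_nhds_zero_nat.smul_const _)
  rw [zero_smul, add_zero] at hlim
  refine mem_closure_of_tendsto hlim (Eventually.of_forall fun k => ?_)
  rw [h2, add_comm]
  exact interior_add_mem hpc.add (interior_smul_mem hpc.smul (by positivity) hint) hxC

/-- Nonzero effective classes are big. -/
theorem eff_big (hy : NormalModel y) (hc : PicardBasis y c) (h𝒮 : ∀ φ ∈ 𝒮, PseudoAut φ y)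
    (hne : (interior (effCone y c)).Nonempty)
    (hΩG : ∀ T ∈ pulls y c 𝒮, ∀ x ∈ interior (effCone y c), T x ∈ interior (effCone y c))
    (hco : Cocompact (pulls y c 𝒮) (interior (effCone y c))) {x : Fin ρ → ℝ}
    (hx : x ∈ effCone y c) (hx0 : x ≠ 0) : x ∈ interior (effCone y c) := by
  have hpc := pc_eff hc.numClasses
  have hlat := lat hy hc h𝒮
  rw [interior_eff hy hc] at hne hΩG hco ⊢
  have hE1 := (Pool.Agent.N40.CC.leafEFF K N ρ y hy c hc).1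
  have h1 : x = 0 ∨ x ∈ interior (CE y c) := by
    refine coneOf_ind (p := fun x => x = 0 ∨ x ∈ interior (CE y c)) (Or.inl rfl) ?_ ?_ ?_ hx
    · rintro x z (rfl | hx) (rfl | hz)
      · left; rw [add_zero]
      · right; rw [zero_add]; exact hz
      · right; rw [add_zero]; exact hx
      · right; exact interior_add_mem hpc.add hx (interior_subset hz)
    · rintro t x ht (rfl | hx)
      · left; rw [smul_zero]
      · rcases ht.eq_or_lt with rfl | ht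
        · left; rw [zero_smul]
        · right; exact interior_smul_mem hpc.smul ht hx
    · rintro _ ⟨P, hP, rfl⟩
      by_cases h0 : rcl c P = 0
      · exact Or.inl h0
      · right
        exact int_of_integral hpc hlat hne hΩG hco (fun i => ⟨c P i, rfl⟩)
          (hE1 (coneOf_self ⟨P, hP, rfl⟩)) h0
  rcases h1 with h1 | h1
  · exact absurd h1 hx0
  · exact h1

/-- The fundamental domain. -/
theorem fund (hy : NormalModel y) (hc : PicardBasis y c) (h𝒮𝒯 : 𝒮 ≤ 𝒯)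
    (h𝒯 : ∀ φ ∈ 𝒯, PseudoAut φ y) (hne : (interior (effCone y c)).Nonempty)
    (hco : Cocompact (pulls y c 𝒮) (interior (effCone y c))) :
    HasFundDomain (pulls y c 𝒯) (effCone y c) := by
  classical
  have hpc := pc_eff hc.numClasses
  obtain ⟨M, hM⟩ := exists_rep (𝒮 := 𝒯) hy hc h𝒯
  obtain ⟨hE1, hE2⟩ := Pool.Agent.N40.CC.leafEFF K N ρ y hy c hc
  rw [interior_eff hy hc] at hne hco
  obtain ⟨B, hB, hBΩ, hcov⟩ := hco
  obtain ⟨Q, hQc, hQs, hQi, hBQ⟩ := exists_closed hpc hB hBΩ hne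
  obtain ⟨F, hF, hFQ⟩ := Pool.Agent.N362.CC.leafCOV ρ _ hpc Q hQc hQs hQi
  obtain ⟨pull, hpull⟩ : ∃ pull : 𝒯 → ((Fin ρ → ℝ) ≃ₗ[ℝ] (Fin ρ → ℝ)),
    ∀ ψ, pull ψ = hM.TE ψ⁻¹ := ⟨_, fun _ => rfl⟩
  have hfd : HasFD pull (effCone y c) := by
    refine HasFD.of_cover (C := CE y c) ⟨hpc.closed, hpc.add, hpc.smul, hpc.pointed, hne,
      hE1, hE2, fun x hx z hz => coneOf_add hx hz, fun t ht x hx => coneOf_smul hx ht⟩
      (fun f g => by rw [hpull, hpull, hpull, mul_inv_rev, hM.TE_mul]) (fun f x hx => ?_)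
      (fun f x hx => ?_) (fun x hx => ?_) F (fun a ha => ⟨(hF a ha).2, hE2 (hF a ha).1⟩)
      (fun x hx => ?_)
    · rw [hpull, hM.TE_apply]
      exact TR_int _ hx
    · rw [hpull, hM.TE_apply]
      exact presE_S hM _ (f⁻¹).2 x hx
    · obtain ⟨S, hS, hx⟩ := hx
      refine ⟨S, fun a ha => ?_, hx⟩
      obtain ⟨P, hP, h1⟩ := hS ha
      refine ⟨?_, coneOf_self ⟨P, hP, h1⟩⟩
      rw [h1]
      exact fun i => ⟨c P i, rfl⟩
    · obtain ⟨T, ⟨ψ, hψ, hT⟩, t, ht, hb⟩ := hcov x hx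
      have hT' : T ∈ pulls y c 𝒯 := ⟨ψ, h𝒮𝒯 hψ, hT⟩
      obtain ⟨φ, rfl⟩ := (mem_pulls hc hM).1 hT'
      refine ⟨φ⁻¹, ?_⟩
      rw [hpull, inv_inv]
      have h1 := cone_smul (hFQ _ (hBQ hb)) (inv_nonneg.2 ht.le)
      rwa [smul_smul, inv_mul_cancel₀ ht.ne', one_smul] at h1
  obtain ⟨S, hS, hU, hdis⟩ := hfd
  have hset : ∀ T, T ∈ pulls y c 𝒯 ↔ ∃ f : 𝒯, T = pull f := by
    intro T
    rw [mem_pulls hc hM]
    constructor
    · rintro ⟨ψ, rfl⟩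
      exact ⟨ψ⁻¹, by rw [hpull, inv_inv]⟩
    · rintro ⟨f, rfl⟩
      exact ⟨f⁻¹, hpull f⟩
  refine ⟨S, hS, ?_, fun T hT hT1 => ?_⟩
  · rw [hU]
    ext x
    simp only [Set.mem_iUnion]
    constructor
    · rintro ⟨f, hf⟩
      exact ⟨pull f, (hset _).2 ⟨f, rfl⟩, hf⟩
    · rintro ⟨T, hT, hx⟩
      obtain ⟨f, rfl⟩ := (hset T).1 hT
      exact ⟨f, hx⟩
  · obtain ⟨f, rfl⟩ := (hset T).1 hT
    exact hdis f hT1

/-- The converse: a fundamental domain whose nonzero elements are in the interior gives a cocompact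
action. -/
theorem cocompact_of_fund {𝒢 : Set ((Fin ρ → ℝ) ≃ₗ[ℝ] (Fin ρ → ℝ))} {A : Set (Fin ρ → ℝ)}
    (hsym : ∀ T ∈ 𝒢, T.symm ∈ 𝒢) (hA : ∀ x ∈ A, x ≠ 0 → x ∈ interior A) (h1 : 1 ∈ 𝒢)
    (hadd : ∀ x ∈ A, ∀ z ∈ A, x + z ∈ A) (hsmul : ∀ t : ℝ, 0 ≤ t → ∀ x ∈ A, t • x ∈ A)
    (hpt : ∀ x ∈ A, -x ∈ A → x = 0) (hfd : HasFundDomain 𝒢 A) : Cocompact 𝒢 (interior A) := by
  classical
  obtain ⟨S, -, hU, -⟩ := hfd
  have hSA : ∀ s ∈ cone S, s ∈ A := by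
    intro s hs
    rw [hU]
    simp only [Set.mem_iUnion, Set.mem_image]
    exact ⟨1, h1, s, hs, rfl⟩
  by_cases h0 : (0 : Fin ρ → ℝ) ∈ interior A
  · have hall : ∀ x : Fin ρ → ℝ, x = 0 := by
      intro x
      have hin : ∀ v : Fin ρ → ℝ, v ∈ A := by
        intro v
        obtain ⟨τ, hτ, h2⟩ := Pool.Agent.N165.KM.interior_sub h0 (-v)
        rw [zero_sub, smul_neg, neg_neg] at h2
        have h3 := hsmul τ⁻¹ (inv_nonneg.2 hτ.le) _ (interior_subset h2)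
        rwa [smul_smul, inv_mul_cancel₀ hτ.ne', one_smul] at h3
      exact hpt x (hin x) (hin (-x))
    refine ⟨{0}, isCompact_singleton, by simpa using h0, fun x _ => ⟨1, h1, 1, one_pos, ?_⟩⟩
    rw [Set.mem_singleton_iff]
    exact hall _
  obtain ⟨S', hS'⟩ : ∃ S' : Finset (Fin ρ → ℝ), S' = S.filter (fun s => s ≠ 0) := ⟨_, rfl⟩
  have hconvA : Convex ℝ A := by
    intro a ha b hb s t hs ht _
    exact hadd _ (hsmul s hs a ha) _ (hsmul t ht b hb)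
  refine ⟨convexHull ℝ (S' : Set (Fin ρ → ℝ)), S'.finite_toSet.isCompact_convexHull ℝ,
    convexHull_min ?_ hconvA.interior, fun x hx => ?_⟩
  · intro s hs
    rw [hS', Finset.mem_coe, Finset.mem_filter] at hs
    exact hA s (hSA s (mem_cone_self hs.1)) hs.2
  · have hx0 : x ≠ 0 := fun h => h0 (h ▸ hx)
    have hxA := interior_subset hx
    rw [hU] at hxA
    simp only [Set.mem_iUnion, Set.mem_image] at hxA
    obtain ⟨T, hT, z, hz, rfl⟩ := hxA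
    have hz0 : z ≠ 0 := fun h => hx0 (by rw [h, map_zero])
    obtain ⟨a, ha, hza⟩ := hz
    have hzS' : z = ∑ s ∈ S', a s • s := by
      rw [hza, hS', Finset.sum_filter]
      refine Finset.sum_congr rfl fun s _ => ?_
      split_ifs with h
      · rfl
      · push Not at h
        rw [h, smul_zero]
    obtain ⟨σ, hσ⟩ : ∃ σ : ℝ, σ = ∑ s ∈ S', a s := ⟨_, rfl⟩
    have hσ0 : 0 ≤ σ := by rw [hσ]; exact Finset.sum_nonneg fun s _ => ha s
    have hσpos : 0 < σ := by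
      refine lt_of_le_of_ne hσ0 fun h => hz0 ?_
      rw [hzS']
      rw [hσ] at h
      refine Finset.sum_eq_zero fun s hs => ?_
      rw [(Finset.sum_eq_zero_iff_of_nonneg fun s _ => ha s).1 h.symm s hs, zero_smul]
    refine ⟨T.symm, hsym T hT, σ⁻¹, inv_pos.2 hσpos, ?_⟩
    rw [LinearEquiv.symm_apply_apply, hzS', Finset.smul_sum]
    have h3 : ∀ s ∈ S', σ⁻¹ • a s • s = (σ⁻¹ * a s) • s := fun s _ => smul_smul _ _ _
    rw [Finset.sum_congr rfl h3]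
    refine (convex_convexHull ℝ _).sum_mem (fun s _ => mul_nonneg (inv_nonneg.2 hσ0) (ha s)) ?_
      fun s hs => subset_convexHull ℝ _ hs
    rw [← Finset.mul_sum, ← hσ, inv_mul_cancel₀ hσpos.ne']

end

end Pool.Agent.L0h18.CO
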