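import Pool.Agent.L0h18.CO.Geo

/-!
Groups of automorphisms acting cocompactly on an open cone of divisor classes: the nef cone.
-/

set_option autoImplicit false
set_option linter.unusedSectionVars false

open FF Pool.Agent.W602.GT Pool.Agent.Y172 Pool.Agent.R887
open Pool.Agent.Y167 (cone cone_image cone_ind zero_mem_cone mem_cone_self cone_add cone_smul
  cone_mono)
open Pool.Agent.N110 Pool.Agent.N110.PA Pool.Agent.N110.NV Pool.Agent.N492.PA Pool.Agent.N110.CC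
open Pool.Agent.N165.KM (IntL Sandwich HasFD interior_add_mem interior_smul_mem)
open Filter Topology

namespace Pool.Agent.L0h18.CO

section

variable {K : Type} [Field K] [Algebra ℂ K] {N n ρ : ℕ} {y : Fin (N + 1) → K}
  {c : Place ℂ K → Fin ρ → ℤ} {𝒮 𝒯 : Subgroup (K ≃ₐ[ℂ] K)}

/-- nef classes are pseudo-effective -/
theorem nef_sub (hy : NormalModel y) (hn : Algebra.trdeg ℂ K = n) (hn0 : 0 < n)
    (hc : PicardBasis y c) : nefCone y n c ⊆ CE y c :=
  (nef_sub_mov hy hn hn0 hc).trans (mov_sub hy hn hn0 hc)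

/-- automorphisms preserve the nef cone -/
theorem nef_pres (hy : NormalModel y) (h𝒮 : ∀ φ ∈ 𝒮, IsAut φ y)
    {T : (Fin ρ → ℝ) ≃ₗ[ℝ] (Fin ρ → ℝ)} (hT : T ∈ pulls y c 𝒮) {x : Fin ρ → ℝ}
    (hx : x ∈ nefCone y n c) : T x ∈ nefCone y n c := by
  obtain ⟨ψ, hψ, hT⟩ := hT
  have hfr := fun φ hφ => Pool.Agent.N265.CC.leafFREE K N n y hy φ (h𝒮 φ hφ)
  refine closure_coneOf_map T.toLinearMap ?_ hx
  rintro _ ⟨D', hD', rfl⟩
  have h4 := Pool.Agent.N608.CC.leafMOV K N ρ y hy c ψ (hfr ψ hψ).1 T hT D' hD'.1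
  exact ⟨_, (hfr ψ hψ).2 D' hD', h4.1.symm⟩

/-- The cone is the ample cone. -/
theorem cone_eq_nef (hy : NormalModel y) (hn : Algebra.trdeg ℂ K = n) (hn0 : 0 < n)
    (hc : PicardBasis y c) (h𝒮 : ∀ φ ∈ 𝒮, IsAut φ y) {Ω : Set (Fin ρ → ℝ)}
    (hΩ : IsOpenCone Ω) (hΩG : ∀ T ∈ pulls y c 𝒮, ∀ x ∈ Ω, T x ∈ Ω)
    (hco : Cocompact (pulls y c 𝒮) Ω) (hex : (Ω ∩ closure (effCone y c)).Nonempty) :
    Ω = interior (effCone y c) ∧ effCone y c ⊆ nefCone y n c ∧ Ω = interior (nefCone y n c) := by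
  have hfr := fun φ hφ => Pool.Agent.N265.CC.leafFREE K N n y hy φ (h𝒮 φ hφ)
  obtain ⟨h1, -⟩ := cone_eq hy hn hn0 hc (fun φ hφ => (hfr φ hφ).1) hΩ hΩG hco hex
  have hpc := pc_eff hc.numClasses
  have hlat := lat hy hc (fun φ hφ => (hfr φ hφ).1)
  obtain ⟨i, hi⟩ := hy.ne
  obtain ⟨Hy, hHe, hH⟩ := exists_hyp hy hi
  obtain ⟨h, hh⟩ : ∃ h, h = toR (cls y (cQ c) Hy) := ⟨_, rfl⟩
  have hint : h ∈ interior (CE y c) := hh ▸ hyp_intN hy hc hi hHe hH
  obtain ⟨D, hDf, -, hD⟩ := Pool.Agent.N93.CC.leafHYP K N n ρ y hy hn hn0 c i hi Hy hHe hH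
  have hmem : h ∈ nefCone y n c := by
    rw [hh, ← hD]
    exact subset_closure (coneOf_self ⟨D, hDf, rfl⟩)
  have h2 : Ω = interior (CE y c) := h1.trans (interior_eff hy hc)
  have h3 : closure Ω ⊆ nefCone y n c := rigid hΩ hlat.symm hΩG hco isClosed_closure
    (fun x hx z hz => closure_coneOf_add hx hz) (fun t ht x hx => closure_coneOf_smul hx ht)
    (fun T hT x hx => nef_pres hy h𝒮 hT hx) (by rw [h2]; exact hint) hmem
  refine ⟨h1, fun x hx => h3 ?_, Set.Subset.antisymm ?_ ?_⟩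
  · have hxC : x ∈ CE y c := (Pool.Agent.N40.CC.leafEFF K N ρ y hy c hc).1 hx
    have hlim : Tendsto (fun k : ℕ => x + (1 / ((k : ℝ) + 1)) • h) atTop (𝓝 (x + (0 : ℝ) • h)) :=
      tendsto_const_nhds.add (tendsto_one_div_add_atTop_nhds_zero_nat.smul_const _)
    rw [zero_smul, add_zero] at hlim
    refine mem_closure_of_tendsto hlim (Eventually.of_forall fun k => ?_)
    rw [h2, add_comm]
    exact interior_add_mem hpc.add (interior_smul_mem hpc.smul (by positivity) hint) hxC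
  · exact interior_maximal (subset_closure.trans h3) hΩ.isOpen
  · rw [h2]
    exact interior_mono (nef_sub hy hn hn0 hc)

end

end Pool.Agent.L0h18.CO
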